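import Pool.Agent.TH755.KD.StmA
import Pool.Agent.H620R2.Gauge.S

/-!
# Square summable biases do not matter (KD-AC)
-/

set_option autoImplicit false

namespace Pool.Agent.TH304.KD

open MeasureTheory
open Pool.Agent.H620R2.Gauge (str Extends str_injective length_str idx str_idx idx_str)
open Pool.Agent.W900.BC (Biased)
open Pool.Agent.H628R3.RO (Oracle randomOracle coin)

theorem ro_prob : IsProbabilityMeasure randomOracle := by
  unfold randomOracle
  infer_instance

attribute [local instance] ro_prob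

/-- the cylinder of a word -/
def Cy (σ : List Bool) : Set Oracle := {A | Extends A σ}

theorem meas_Cy (σ : List Bool) : MeasurableSet (Cy σ) := by
  have h : Cy σ = ⋂ i, ⋂ (h : i < σ.length), {A : Oracle | A (str i) = σ[i]} := by
    ext A
    simp [Cy, Extends]
  rw [h]
  exact MeasurableSet.iInter fun i => MeasurableSet.iInter fun h =>
    measurable_pi_apply (str i) (MeasurableSet.singleton _)

theorem ext_single {A : Oracle} {σ : List Bool} {b : Bool} :
    A ∈ Cy (σ ++ [b]) ↔ A ∈ Cy σ ∧ A (str σ.length) = b := by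
  constructor
  · intro h
    refine ⟨fun i hi => ?_, ?_⟩
    · have h1 := h i (by rw [List.length_append]; omega)
      rw [h1, List.getElem_append_left hi]
    · have h1 := h σ.length (by simp)
      rw [h1]
      simp
  · rintro ⟨h1, h2⟩ i hi
    by_cases h : i < σ.length
    · rw [List.getElem_append_left h]
      exact h1 i h
    · have hi' : i = σ.length := by
        rw [List.length_append, List.length_singleton] at hi
        omega
      subst hi'
      rw [h2]
      simp

theorem Cy_nil : Cy [] = Set.univ := by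
  ext A
  simp [Cy, Extends]

theorem Cy_split (U : Set Oracle) (σ : List Bool) :
    U ∩ Cy σ = (U ∩ Cy (σ ++ [true])) ∪ (U ∩ Cy (σ ++ [false])) := by
  ext A
  simp only [Set.mem_inter_iff, Set.mem_union, ext_single]
  cases A (str σ.length) <;> simp

theorem Cy_disj (U : Set Oracle) (σ : List Bool) :
    Disjoint (U ∩ Cy (σ ++ [true])) (U ∩ Cy (σ ++ [false])) := by
  rw [Set.disjoint_left]
  rintro A ⟨-, h1⟩ ⟨-, h2⟩
  rw [ext_single] at h1 h2
  rw [h1.2] at h2
  exact Bool.noConfusion h2.2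

theorem real_split (μ : Measure Oracle) [IsFiniteMeasure μ] {U : Set Oracle} (hU : MeasurableSet U)
    (σ : List Bool) : μ.real (U ∩ Cy σ) =
      μ.real (U ∩ Cy (σ ++ [true])) + μ.real (U ∩ Cy (σ ++ [false])) := by
  rw [Cy_split U σ, measureReal_union (Cy_disj U σ) (hU.inter (meas_Cy _))]

theorem coin_single (b : Bool) : coin {b} = 2⁻¹ := by
  cases b <;> simp [coin]

theorem lam_Cy (σ : List Bool) : randomOracle.real (Cy σ) = (1 / 2) ^ σ.length := by
  classical
  have h : Cy σ = Set.pi (((Finset.range σ.length).image str : Finset (List Bool)) :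
      Set (List Bool)) (fun z => ({σ.getD (idx z) true} : Set Bool)) := by
    ext A
    simp only [Cy, Extends, Set.mem_pi, Finset.coe_image, Set.mem_image,
      Finset.coe_range, Set.mem_Iio, Set.mem_singleton_iff]
    constructor
    · rintro h1 z ⟨i, hi, rfl⟩
      rw [idx_str, List.getD_eq_getElem _ _ hi]
      exact h1 i hi
    · intro h1 i hi
      have := h1 (str i) ⟨i, hi, rfl⟩
      rw [idx_str, List.getD_eq_getElem _ _ hi] at this
      exact this
  have h2 : randomOracle (Cy σ) = (2⁻¹ : ENNReal) ^ σ.length := by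
    rw [h]
    unfold randomOracle
    rw [Measure.infinitePi_pi _ (fun _ _ => MeasurableSet.singleton _)]
    rw [Finset.prod_congr rfl fun z _ => coin_single _, Finset.prod_const,
      Finset.card_image_of_injective _ str_injective, Finset.card_range]
  rw [Measure.real, h2]
  simp

/-- the set is determined by the first `n` bits -/
def Det (U : Set Oracle) (n : ℕ) : Prop :=
  ∀ A A' : Oracle, (∀ i < n, A (str i) = A' (str i)) → A ∈ U → A' ∈ U

theorem cs_step {x y a b l1 l0 K s e : ℝ} (_hx : 0 ≤ x) (_hy : 0 ≤ y) (ha : 0 ≤ a) (hb : 0 ≤ b)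
    (hl1 : 0 ≤ l1) (hl0 : 0 ≤ l0) (hK : 0 ≤ K) (hx2 : x ^ 2 ≤ K * a ^ 2 * l1)
    (hy2 : y ^ 2 ≤ K * b ^ 2 * l0) (hab : a + b = s) (ha' : a ≤ (1 / 2 + e) * s)
    (hb' : b ≤ (1 / 2 + e) * s) (_he : 0 ≤ e) :
    (x + y) ^ 2 ≤ K * ((1 / 2 + 2 * e ^ 2) * s ^ 2) * (l1 + l0) := by
  have h1 : a ^ 2 + b ^ 2 ≤ (1 / 2 + 2 * e ^ 2) * s ^ 2 := by
    have h2 : (a - b) ^ 2 ≤ (2 * e * s) ^ 2 := by
      apply sq_le_sq'
      · nlinarith
      · nlinarith
    nlinarith
  have h3 : 2 * (x * y) ≤ K * a ^ 2 * l0 + K * b ^ 2 * l1 := by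
    have h4 : (x * y) ^ 2 ≤ (K * a ^ 2 * l0) * (K * b ^ 2 * l1) := by
      calc (x * y) ^ 2 = x ^ 2 * y ^ 2 := by ring
        _ ≤ (K * a ^ 2 * l1) * (K * b ^ 2 * l0) :=
            mul_le_mul hx2 hy2 (sq_nonneg _) (by positivity)
        _ = (K * a ^ 2 * l0) * (K * b ^ 2 * l1) := by ring
    have h5 : (2 * (x * y)) ^ 2 ≤ (K * a ^ 2 * l0 + K * b ^ 2 * l1) ^ 2 := by
      nlinarith [sq_nonneg (K * a ^ 2 * l0 - K * b ^ 2 * l1)]
    exact le_of_sq_le_sq h5 (by positivity)
  calc (x + y) ^ 2 = x ^ 2 + y ^ 2 + 2 * (x * y) := by ring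
    _ ≤ K * a ^ 2 * l1 + K * b ^ 2 * l0 + (K * a ^ 2 * l0 + K * b ^ 2 * l1) := by linarith
    _ = K * (a ^ 2 + b ^ 2) * (l1 + l0) := by ring
    _ ≤ K * ((1 / 2 + 2 * e ^ 2) * s ^ 2) * (l1 + l0) := by
        apply mul_le_mul_of_nonneg_right _ (by positivity)
        exact mul_le_mul_of_nonneg_left h1 hK

theorem biased_real {ε : ℕ → ℝ} (hε : ∀ n, 0 ≤ ε n) {μ : Measure Oracle} [IsProbabilityMeasure μ]
    (h : Biased ε μ) (σ : List Bool) (b : Bool) :
    μ.real (Cy (σ ++ [b])) ≤ (1 / 2 + ε (str σ.length).length) * μ.real (Cy σ) := by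
  have h1 := h σ b
  have h2 : 0 ≤ 1 / 2 + ε (str σ.length).length := by
    have := hε (str σ.length).length
    linarith
  have h3 := ENNReal.toReal_mono (ENNReal.mul_ne_top ENNReal.ofReal_ne_top (measure_ne_top _ _)) h1
  rw [ENNReal.toReal_mul, ENNReal.toReal_ofReal h2] at h3
  exact h3

theorem key {ε : ℕ → ℝ} (hε : ∀ n, 0 ≤ ε n) {μ : Measure Oracle} [IsProbabilityMeasure μ]
    (h : Biased ε μ) {U : Set Oracle} (hU : MeasurableSet U) (N : ℕ) : ∀ σ : List Bool,
    Det U (σ.length + N) →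
      μ.real (U ∩ Cy σ) ^ 2 ≤
        (∏ k ∈ Finset.range N, (1 + 4 * ε (str (σ.length + k)).length ^ 2)) * μ.real (Cy σ) ^ 2 *
          (2 ^ σ.length * randomOracle.real (U ∩ Cy σ)) := by
  induction N with
  | zero =>
    intro σ hD
    by_cases hA : ∃ A, A ∈ U ∩ Cy σ
    · obtain ⟨A, hA⟩ := hA
      have h1 : U ∩ Cy σ = Cy σ := by
        ext A'
        refine ⟨fun h2 => h2.2, fun h2 => ⟨hD A A' (fun i hi => ?_) hA.1, h2⟩⟩
        rw [add_zero] at hi
        rw [hA.2 i hi, h2 i hi]
      rw [h1, lam_Cy, ← mul_pow]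
      simp
    · have h1 : U ∩ Cy σ = ∅ := by
        rw [Set.eq_empty_iff_forall_notMem]
        exact fun A hA' => hA ⟨A, hA'⟩
      rw [h1]
      simp
  | succ N ih =>
    intro σ hD
    have hD' : ∀ b : Bool, Det U ((σ ++ [b]).length + N) := by
      intro b
      rw [List.length_append, List.length_singleton]
      have : σ.length + 1 + N = σ.length + (N + 1) := by ring
      rw [this]
      exact hD
    have h1 := ih (σ ++ [true]) (hD' true)
    have h0 := ih (σ ++ [false]) (hD' false)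
    have hl : ∀ b : Bool, (σ ++ [b]).length = σ.length + 1 := by intro b; simp
    rw [hl] at h1 h0
    have hK : ∀ k, (0 : ℝ) ≤ 1 + 4 * ε (str (σ.length + 1 + k)).length ^ 2 := fun k => by positivity
    have hs : μ.real (Cy (σ ++ [true])) + μ.real (Cy (σ ++ [false])) = μ.real (Cy σ) := by
      have := real_split μ MeasurableSet.univ σ
      simpa using this.symm
    have hKK : ∏ k ∈ Finset.range (N + 1), (1 + 4 * ε (str (σ.length + k)).length ^ 2) =
        (∏ k ∈ Finset.range N, (1 + 4 * ε (str (σ.length + 1 + k)).length ^ 2)) *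
          (1 + 4 * ε (str σ.length).length ^ 2) := by
      rw [Finset.prod_range_succ']
      congr 1
      refine Finset.prod_congr rfl fun k _ => ?_
      have : σ.length + (k + 1) = σ.length + 1 + k := by ring
      rw [this]
    have h5 := cs_step (x := μ.real (U ∩ Cy (σ ++ [true]))) (y := μ.real (U ∩ Cy (σ ++ [false])))
      (a := μ.real (Cy (σ ++ [true]))) (b := μ.real (Cy (σ ++ [false])))
      (l1 := 2 ^ (σ.length + 1) * randomOracle.real (U ∩ Cy (σ ++ [true])))
      (l0 := 2 ^ (σ.length + 1) * randomOracle.real (U ∩ Cy (σ ++ [false])))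
      (K := ∏ k ∈ Finset.range N, (1 + 4 * ε (str (σ.length + 1 + k)).length ^ 2))
      (s := μ.real (Cy σ)) (e := ε (str σ.length).length)
      measureReal_nonneg measureReal_nonneg measureReal_nonneg measureReal_nonneg
      (by positivity) (by positivity) (Finset.prod_nonneg fun k _ => hK k) h1 h0 hs
      (biased_real hε h σ true) (biased_real hε h σ false) (hε _)
    rw [real_split μ hU σ, real_split randomOracle hU σ, hKK]
    refine h5.trans (le_of_eq ?_)
    rw [pow_succ]
    ring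

theorem sum_levels (g : ℕ → ℝ) (T : ℕ) :
    ∑ k ∈ Finset.range (2 ^ T - 1), g (Nat.log 2 (k + 1)) = ∑ m ∈ Finset.range T, 2 ^ m * g m := by
  induction T with
  | zero => simp
  | succ T ih =>
    have h1 : 1 ≤ 2 ^ T := Nat.one_le_two_pow
    have h2 : 2 ^ (T + 1) - 1 = (2 ^ T - 1) + 2 ^ T := by
      rw [pow_succ]
      omega
    rw [h2, Finset.sum_range_add, ih, Finset.sum_range_succ]
    congr 1
    have h3 : ∀ x ∈ Finset.range (2 ^ T), g (Nat.log 2 (2 ^ T - 1 + x + 1)) = g T := by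
      intro x hx
      rw [Finset.mem_range] at hx
      have h4 : 2 ^ T - 1 + x + 1 = 2 ^ T + x := by omega
      rw [h4, Nat.log_eq_of_pow_le_of_lt_pow (m := T) (by omega) (by rw [pow_succ]; omega)]
    rw [Finset.sum_congr rfl h3]
    simp

theorem prod_bound {ε : ℕ → ℝ} (hs : Summable (fun m : ℕ => (2 : ℝ) ^ m * ε m ^ 2)) (N : ℕ) :
    ∏ k ∈ Finset.range N, (1 + 4 * ε (str k).length ^ 2) ≤
      Real.exp (4 * ∑' m : ℕ, (2 : ℝ) ^ m * ε m ^ 2) := by
  have h1 : ∏ k ∈ Finset.range N, (1 + 4 * ε (str k).length ^ 2) ≤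
      Real.exp (∑ k ∈ Finset.range N, 4 * ε (str k).length ^ 2) := by
    rw [Real.exp_sum]
    refine Finset.prod_le_prod (fun k _ => by positivity) fun k _ => ?_
    rw [add_comm]
    exact Real.add_one_le_exp _
  refine h1.trans (Real.exp_le_exp.2 ?_)
  rw [← Finset.mul_sum]
  refine mul_le_mul_of_nonneg_left ?_ (by norm_num)
  have h2 : N ≤ 2 ^ N - 1 := by
    have := Nat.lt_two_pow_self (n := N)
    omega
  calc ∑ k ∈ Finset.range N, ε (str k).length ^ 2
      = ∑ k ∈ Finset.range N, ε (Nat.log 2 (k + 1)) ^ 2 :=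
        Finset.sum_congr rfl fun k _ => by rw [length_str]
    _ ≤ ∑ k ∈ Finset.range (2 ^ N - 1), ε (Nat.log 2 (k + 1)) ^ 2 :=
        Finset.sum_le_sum_of_subset_of_nonneg
          (Finset.range_subset_range.2 h2) fun _ _ _ => sq_nonneg _
    _ = ∑ m ∈ Finset.range N, 2 ^ m * ε m ^ 2 := sum_levels (fun m => ε m ^ 2) N
    _ ≤ ∑' m : ℕ, (2 : ℝ) ^ m * ε m ^ 2 :=
        hs.sum_le_tsum _ fun m _ => by positivity

theorem det_of_cylinder {U : Set Oracle}
    (hU : U ∈ measurableCylinders (fun _ : List Bool => Bool)) : ∃ N, Det U N := by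
  obtain ⟨s, S, -, rfl⟩ := (mem_measurableCylinders _).1 hU
  refine ⟨s.sup idx + 1, fun A A' h hA => ?_⟩
  rw [mem_cylinder] at hA ⊢
  have : s.restrict A' = s.restrict A := by
    funext z
    have hz : idx z.1 < s.sup idx + 1 := Nat.lt_succ_of_le (Finset.le_sup (f := idx) z.2)
    have := h (idx z.1) hz
    rw [str_idx] at this
    exact this.symm
  rw [this]
  exact hA

theorem bound_cylinder {ε : ℕ → ℝ} (hε : ∀ n, 0 ≤ ε n)
    (hs : Summable (fun m : ℕ => (2 : ℝ) ^ m * ε m ^ 2)) {μ : Measure Oracle}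
    [IsProbabilityMeasure μ] (h : Biased ε μ) {U : Set Oracle}
    (hU : U ∈ measurableCylinders (fun _ : List Bool => Bool)) :
    μ.real U ^ 2 ≤ Real.exp (4 * ∑' m : ℕ, (2 : ℝ) ^ m * ε m ^ 2) * randomOracle.real U := by
  obtain ⟨N, hN⟩ := det_of_cylinder hU
  have hm : MeasurableSet U := MeasurableSet.of_mem_measurableCylinders hU
  have h1 := key hε h hm N [] (by simpa using hN)
  rw [Cy_nil, Set.inter_univ] at h1
  simp only [List.length_nil, zero_add, pow_zero, one_mul, probReal_univ, one_pow, mul_one] at h1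
  exact h1.trans (mul_le_mul_of_nonneg_right (prod_bound hs N) measureReal_nonneg)

theorem t_AC : Pool.Agent.TH755.KD.S_AC := by
  intro ε hε hs μ hμ hB
  refine Measure.AbsolutelyContinuous.mk fun E hE hE0 => ?_
  obtain ⟨C, hC⟩ : ∃ C, C = Real.exp (4 * ∑' m : ℕ, (2 : ℝ) ^ m * ε m ^ 2) := ⟨_, rfl⟩
  have hC0 : 0 < C := by rw [hC]; exact Real.exp_pos _
  by_contra hne
  have hx : 0 < μ.real E := by
    rw [Measure.real]
    exact ENNReal.toReal_pos hne (measure_ne_top _ _)
  obtain ⟨x, hxx⟩ : ∃ x, x = μ.real E := ⟨_, rfl⟩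
  rw [← hxx] at hx
  obtain ⟨δ, hδ⟩ : ∃ δ, δ = min (x / 2) (x ^ 2 / (8 * C)) := ⟨_, rfl⟩
  have hδ0 : 0 < δ := by rw [hδ]; exact lt_min (by positivity) (by positivity)
  have hδ1 : δ ≤ x / 2 := by rw [hδ]; exact min_le_left _ _
  have hδ2 : δ ≤ x ^ 2 / (8 * C) := by rw [hδ]; exact min_le_right _ _
  obtain ⟨U, hU, hU2⟩ := exists_measure_symmDiff_lt_of_generateFrom_isSetRing
    (μ := μ + randomOracle) (C := measurableCylinders (fun _ : List Bool => Bool))
    isSetRing_measurableCylinders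
    ⟨{Set.univ}, Set.countable_singleton _, by
      simpa using univ_mem_measurableCylinders (fun _ : List Bool => Bool), by simp⟩
    generateFrom_measurableCylinders.symm hE (ε := ENNReal.ofReal δ) (ENNReal.ofReal_pos.2 hδ0)
  have hUm : MeasurableSet U := MeasurableSet.of_mem_measurableCylinders hU
  rw [Measure.add_apply] at hU2
  have h1 : μ.real (symmDiff U E) ≤ δ := by
    rw [Measure.real]
    exact ENNReal.toReal_le_of_le_ofReal hδ0.le (le_self_add.trans hU2.le)
  have h2 : randomOracle.real (symmDiff U E) ≤ δ := by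
    rw [Measure.real]
    exact ENNReal.toReal_le_of_le_ofReal hδ0.le (le_add_self.trans hU2.le)
  have h3 : randomOracle.real U ≤ δ := by
    have h4 : U ⊆ symmDiff U E ∪ E := by
      intro A hA
      by_cases h5 : A ∈ E
      · exact Or.inr h5
      · exact Or.inl (Or.inl ⟨hA, h5⟩)
    have h5 : randomOracle.real U ≤ randomOracle.real (symmDiff U E) + randomOracle.real E :=
      (measureReal_mono h4).trans (measureReal_union_le _ _)
    have h6 : randomOracle.real E = 0 := by rw [Measure.real, hE0]; rfl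
    linarith
  have h7 : x ≤ δ + μ.real U := by
    have h4 : E ⊆ symmDiff U E ∪ U := by
      intro A hA
      by_cases h5 : A ∈ U
      · exact Or.inr h5
      · exact Or.inl (Or.inr ⟨hA, h5⟩)
    have h5 : μ.real E ≤ μ.real (symmDiff U E) + μ.real U :=
      (measureReal_mono h4).trans (measureReal_union_le _ _)
    rw [hxx]
    linarith
  have h8 := bound_cylinder hε hs hB hU
  rw [← hC] at h8
  have h9 : (x / 2) ^ 2 ≤ μ.real U ^ 2 := pow_le_pow_left₀ (by positivity) (by linarith) 2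
  have h10 : C * randomOracle.real U ≤ C * (x ^ 2 / (8 * C)) :=
    mul_le_mul_of_nonneg_left (h3.trans hδ2) hC0.le
  have h11 : C * (x ^ 2 / (8 * C)) = x ^ 2 / 8 := by
    field_simp
  nlinarith

end Pool.Agent.TH304.KD
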